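import Pool.Agent.Lib.MP_571595_lc.MORT.Base

/-!
# Mortality of 2x2 integer matrices: module DATA
-/

set_option autoImplicit false
set_option linter.all false

namespace Pool.Agent.Lib.MP_571595_lc.MORT.H27

open Finset

lemma val_prod {ι : Type} (p : ℕ) [Fact p.Prime] (s : Finset ι) (f : ι → ℚ)
    (hf : ∀ i ∈ s, f i ≠ 0) :
    padicValRat p (∏ i ∈ s, f i) = ∑ i ∈ s, padicValRat p (f i) := by
  classical
  induction s using Finset.induction_on with
  | empty => simp
  | insert a s ha ih =>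
    rw [Finset.prod_insert ha, Finset.sum_insert ha,
      padicValRat.mul (hf a (Finset.mem_insert_self a s))
        (Finset.prod_ne_zero_iff.2 fun i hi => hf i (Finset.mem_insert_of_mem hi)),
      ih fun i hi => hf i (Finset.mem_insert_of_mem hi)]

lemma val_prime_ne (p q : ℕ) (hp : p.Prime) (hq : q.Prime) (h : p ≠ q) :
    padicValRat p (q : ℚ) = 0 := by
  haveI : Fact p.Prime := ⟨hp⟩
  haveI : Fact q.Prime := ⟨hq⟩
  rw [padicValRat.of_nat, padicValNat_primes h]
  rfl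

lemma val_self (p : ℕ) (hp : p.Prime) : padicValRat p (p : ℚ) = 1 := by
  rw [padicValRat.of_nat, padicValNat.self hp.one_lt]
  rfl

lemma norm_one {x : ℚ} (hx : x ≠ 0) (h : padicValRat 2 x = 0) : padicNorm 2 x = 1 := by
  rw [padicNorm.eq_zpow_of_nonzero hx, h]
  simp

lemma sq_norm {x : ℚ} (hx : x ≠ 0) (h : padicValRat 2 x = 0) :
    padicNorm 2 (x ^ 2 - 1) ≤ 1 / 8 := by
  haveI : Fact (Nat.Prime 2) := ⟨Nat.prime_two⟩
  have h1 := norm_one hx h
  have hb0 : (x.den : ℚ) ≠ 0 := Nat.cast_ne_zero.2 x.den_nz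
  have hx' : x = (x.num : ℚ) / (x.den : ℚ) := (Rat.num_div_den x).symm
  have h2 : padicNorm 2 (x.num : ℚ) = padicNorm 2 (x.den : ℚ) := by
    rw [hx', padicNorm.div] at h1
    have h3 : padicNorm 2 (x.den : ℚ) ≠ 0 := padicNorm.nonzero hb0
    exact (div_eq_one_iff_eq h3).1 h1
  have hb : ¬ 2 ∣ x.den := by
    intro hd
    have h3 : padicNorm 2 (x.den : ℚ) < 1 := (padicNorm.nat_lt_one_iff _).2 hd
    rw [← h2] at h3
    have h4 : (2 : ℤ) ∣ x.num := (padicNorm.int_lt_one_iff _).1 h3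
    have h5 := x.reduced
    have h6 : 2 ∣ x.num.natAbs := Int.natCast_dvd.1 h4
    have h7 := Nat.dvd_gcd h6 hd
    rw [h5] at h7
    omega
  have hbn : padicNorm 2 (x.den : ℚ) = 1 := (padicNorm.nat_eq_one_iff _).2 hb
  have ha : ¬ (2 : ℤ) ∣ x.num := (padicNorm.int_eq_one_iff _).1 (h2.trans hbn)
  have h8 : ((2 ^ 3 : ℕ) : ℤ) ∣ x.num ^ 2 - (x.den : ℤ) ^ 2 := by
    have hao : Odd x.num := by
      rw [← Int.not_even_iff_odd, even_iff_two_dvd]
      exact ha
    have hbo : Odd (x.den : ℤ) := by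
      rw [← Int.not_even_iff_odd, even_iff_two_dvd]
      intro h9
      exact hb (by exact_mod_cast h9)
    obtain ⟨k, hk⟩ := hao
    obtain ⟨l, hl⟩ := hbo
    obtain ⟨u, hu⟩ := Int.even_mul_succ_self k
    obtain ⟨v, hv⟩ := Int.even_mul_succ_self l
    refine ⟨u - v, ?_⟩
    rw [hk, hl]
    push_cast
    linear_combination 4 * hu - 4 * hv
  have h9 := (padicNorm.dvd_iff_norm_le (p := 2)).1 h8
  have h10 : x ^ 2 - 1 = ((x.num ^ 2 - (x.den : ℤ) ^ 2 : ℤ) : ℚ) / (x.den : ℚ) ^ 2 := by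
    push_cast
    rw [eq_div_iff (pow_ne_zero 2 hb0), sub_mul, one_mul, ← mul_pow]
    congr 2
    exact Rat.mul_den_eq_num x
  rw [h10, padicNorm.div, pow_two (x.den : ℚ), padicNorm.mul, hbn, mul_one, div_one]
  refine le_trans h9 ?_
  norm_num

section

variable {J Q R : Type}

lemma st_finite [Finite Q] [Finite R] : Finite (St Q R) := by
  let f : St Q R → Q ⊕ R ⊕ Fin 3 := fun a => match a with
    | .q0 => Sum.inr (Sum.inr 0)
    | .U q => Sum.inl q
    | .L r => Sum.inr (Sum.inl r)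
    | .AU => Sum.inr (Sum.inr 1)
    | .AL => Sum.inr (Sum.inr 2)
  refine Finite.of_injective f ?_
  intro a b h
  cases a <;> cases b <;> simp [f] at h ⊢ <;> first | exact h | rfl

variable [Fintype J]

lemma ell_add (z w : J → ℤ) (i : J) : ell (z + w) i = ell z i + ell w i := by
  unfold ell
  simp only [Pi.add_apply, Finset.sum_add_distrib]
  ring

variable (pr : J ⊕ J → ℕ)

/-- the ratios -/
noncomputable def rat (hp : ∀ i, (pr i).Prime) (i : J) : ℚˣ :=
  Units.mk0 ((pr (.inl i) : ℚ) / (pr (.inr i) : ℚ))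
    (div_ne_zero (Nat.cast_ne_zero.2 (hp _).ne_zero) (Nat.cast_ne_zero.2 (hp _).ne_zero))

/-- the multipliers -/
noncomputable def rho (hp : ∀ i, (pr i).Prime) (M : ℤ) (z : J → ℤ) : ℚˣ :=
  ∏ i, rat pr hp i ^ (M * ell z i)

lemma rho_coe (hp : ∀ i, (pr i).Prime) (M : ℤ) (z : J → ℤ) :
    (rho pr hp M z : ℚ) = ∏ i, ((pr (.inl i) : ℚ) / (pr (.inr i) : ℚ)) ^ (M * ell z i) := by
  simp [rho, rat]

lemma pr_ne (hp : ∀ i, (pr i).Prime) (i : J ⊕ J) : (pr i : ℚ) ≠ 0 :=
  Nat.cast_ne_zero.2 (hp i).ne_zero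

lemma rat_ne (hp : ∀ i, (pr i).Prime) (i : J) (k : ℤ) :
    ((pr (.inl i) : ℚ) / (pr (.inr i) : ℚ)) ^ k ≠ 0 :=
  zpow_ne_zero _ (div_ne_zero (pr_ne pr hp _) (pr_ne pr hp _))

lemma val_rho (hp : ∀ i, (pr i).Prime) (M : ℤ) (z : J → ℤ) (p : ℕ) (h : p.Prime) :
    padicValRat p (rho pr hp M z : ℚ) =
      ∑ i, (M * ell z i) * (padicValRat p (pr (.inl i) : ℚ) - padicValRat p (pr (.inr i) : ℚ)) := by
  haveI : Fact p.Prime := ⟨h⟩
  rw [rho_coe, val_prod p _ _ fun i _ => rat_ne pr hp i _]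
  refine Finset.sum_congr rfl fun i _ => ?_
  rw [padicValRat.zpow, padicValRat.div (pr_ne pr hp _) (pr_ne pr hp _)]

lemma val_pr [DecidableEq J] (hp : ∀ i, (pr i).Prime) (hinj : Function.Injective pr)
    (i j : J ⊕ J) : padicValRat (pr i) (pr j : ℚ) = if i = j then 1 else 0 := by
  by_cases h : i = j
  · subst h
    rw [if_pos rfl, val_self _ (hp i)]
  · rw [if_neg h, val_prime_ne _ _ (hp i) (hp j) fun h' => h (hinj h')]

lemma rho_inl (hp : ∀ i, (pr i).Prime) (hinj : Function.Injective pr) (M : ℤ) (z : J → ℤ)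
    (i : J) : padicValRat (pr (.inl i)) (rho pr hp M z : ℚ) = M * ell z i := by
  classical
  rw [val_rho pr hp M z _ (hp _)]
  simp only [val_pr pr hp hinj, Sum.inl.injEq, reduceCtorEq, if_false, sub_zero, mul_ite,
    mul_one, mul_zero]
  rw [Finset.sum_ite_eq]
  simp

lemma rho_inr (hp : ∀ i, (pr i).Prime) (hinj : Function.Injective pr) (M : ℤ) (z : J → ℤ)
    (i : J) : padicValRat (pr (.inr i)) (rho pr hp M z : ℚ) = -(M * ell z i) := by
  classical
  rw [val_rho pr hp M z _ (hp _)]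
  simp only [val_pr pr hp hinj, Sum.inr.injEq, reduceCtorEq, if_false, zero_sub, mul_neg,
    mul_ite, mul_one, mul_zero]
  rw [Finset.sum_neg_distrib, Finset.sum_ite_eq]
  simp

lemma rho_two (hp : ∀ i, (pr i).Prime) (h2 : ∀ i, pr i ≠ 2) (M : ℤ) (z : J → ℤ) :
    padicValRat 2 (rho pr hp M z : ℚ) = 0 := by
  rw [val_rho pr hp M z _ Nat.prime_two]
  refine Finset.sum_eq_zero fun i _ => ?_
  rw [val_prime_ne 2 _ Nat.prime_two (hp _) (h2 _).symm,
    val_prime_ne 2 _ Nat.prime_two (hp _) (h2 _).symm]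
  ring

lemma rho_sq (hp : ∀ i, (pr i).Prime) (M : ℤ) (z : J → ℤ) :
    (rho pr hp (2 * M) z : ℚ) = (rho pr hp M z : ℚ) ^ 2 := by
  rw [rho_coe, rho_coe, ← Finset.prod_pow]
  refine Finset.prod_congr rfl fun i _ => ?_
  rw [← zpow_natCast, ← zpow_mul]
  congr 1
  push_cast
  ring

/-- the product of all primes -/
noncomputable def pp : ℚ := ∏ i, (pr i : ℚ)

/-- colours -/
noncomputable def chi (e : ℤ) : ℚ := 8 * pp pr ^ (-e)

lemma pp_ne (hp : ∀ i, (pr i).Prime) : pp pr ≠ 0 :=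
  Finset.prod_ne_zero_iff.2 fun i _ => pr_ne pr hp i

lemma chi_ne (hp : ∀ i, (pr i).Prime) (e : ℤ) : chi pr e ≠ 0 :=
  mul_ne_zero (by norm_num) (zpow_ne_zero _ (pp_ne pr hp))

lemma val_eight (p : ℕ) (hp : p.Prime) (h2 : p ≠ 2) : padicValRat p (8 : ℚ) = 0 := by
  haveI : Fact p.Prime := ⟨hp⟩
  have h : (8 : ℚ) = ((2 : ℕ) : ℚ) ^ 3 := by norm_num
  rw [h, padicValRat.pow, val_prime_ne p 2 hp Nat.prime_two h2, mul_zero]

lemma val_chi (hp : ∀ i, (pr i).Prime) (hinj : Function.Injective pr) (h2 : ∀ i, pr i ≠ 2)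
    (e : ℤ) (i : J ⊕ J) : padicValRat (pr i) (chi pr e) = -e := by
  classical
  haveI : Fact (pr i).Prime := ⟨hp i⟩
  rw [chi, padicValRat.mul (by norm_num) (zpow_ne_zero _ (pp_ne pr hp)),
    val_eight _ (hp i) (h2 i), padicValRat.zpow, pp, val_prod _ _ _ fun j _ => pr_ne pr hp j]
  simp only [val_pr pr hp hinj]
  rw [Finset.sum_ite_eq]
  simp

lemma chi_norm (hp : ∀ i, (pr i).Prime) (h2 : ∀ i, pr i ≠ 2) (e : ℤ) :
    padicNorm 2 (chi pr e) ≤ 1 / 8 := by
  haveI : Fact (Nat.Prime 2) := ⟨Nat.prime_two⟩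
  have h8 : padicValRat 2 (8 : ℚ) = 3 := by
    have h : (8 : ℚ) = ((2 : ℕ) : ℚ) ^ 3 := by norm_num
    rw [h, padicValRat.pow, val_self 2 Nat.prime_two]
    norm_num
  have hv : padicValRat 2 (chi pr e) = 3 := by
    rw [chi, padicValRat.mul (by norm_num) (zpow_ne_zero _ (pp_ne pr hp)), h8,
      padicValRat.zpow, pp, val_prod _ _ _ fun j _ => pr_ne pr hp j]
    rw [Finset.sum_eq_zero fun j _ => val_prime_ne 2 _ Nat.prime_two (hp _) (h2 _).symm]
    simp
  rw [padicNorm.eq_zpow_of_nonzero (chi_ne pr hp e), hv]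
  norm_num

end

theorem data : DataStatement := by
  intro J Q R _ _ _ C
  classical
  haveI : Finite (St Q R) := st_finite
  haveI := Fintype.ofFinite (St Q R)
  haveI := Fintype.ofFinite R
  -- the primes
  let f : J ⊕ J → ℕ := fun i => (Fintype.equivFin (J ⊕ J) i : ℕ)
  have hf : Function.Injective f := fun a b h =>
    (Fintype.equivFin (J ⊕ J)).injective (Fin.ext h)
  let pr : J ⊕ J → ℕ := fun i => Nat.nth Nat.Prime (f i + 1)
  have hp : ∀ i, (pr i).Prime := fun i => Nat.prime_nth_prime _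
  have hmono : StrictMono (Nat.nth Nat.Prime) := Nat.nth_strictMono Nat.infinite_setOf_prime
  have hinj : Function.Injective pr := fun a b h => hf (Nat.succ_injective (hmono.injective h))
  have h2 : ∀ i, pr i ≠ 2 := by
    intro i h
    have h1 : Nat.nth Nat.Prime 0 < pr i := hmono (Nat.succ_pos _)
    rw [Nat.nth_prime_zero_eq_two] at h1
    omega
  -- the constants
  let idx : St Q R → ℕ := fun a => (Fintype.equivFin (St Q R) a : ℕ)
  have hidx : Function.Injective idx := fun a b h =>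
    (Fintype.equivFin (St Q R)).injective (Fin.ext h)
  have hidx_lt : ∀ a, idx a < Fintype.card (St Q R) := fun a => (Fintype.equivFin _ a).2
  let M0 : ℤ := (Fintype.card (St Q R) : ℤ) + 3
  let E : ℤ := 1 + ∑ r : R, ∑ i : J, |ell (C.del r) i|
  have hE : ∀ r i, |ell (C.del r) i| < E := by
    intro r i
    have h3 : |ell (C.del r) i| ≤ ∑ i : J, |ell (C.del r) i| :=
      Finset.single_le_sum (f := fun i => |ell (C.del r) i|) (fun _ _ => abs_nonneg _)
        (Finset.mem_univ i)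
    have h4 : ∑ i : J, |ell (C.del r) i| ≤ ∑ r : R, ∑ i : J, |ell (C.del r) i| :=
      Finset.single_le_sum (f := fun r => ∑ i : J, |ell (C.del r) i|)
        (fun _ _ => Finset.sum_nonneg fun _ _ => abs_nonneg _) (Finset.mem_univ r)
    show |ell (C.del r) i| < 1 + ∑ r : R, ∑ i : J, |ell (C.del r) i|
    linarith
  have hE1 : 1 ≤ E := by
    have : 0 ≤ ∑ r : R, ∑ i : J, |ell (C.del r) i| :=
      Finset.sum_nonneg fun _ _ => Finset.sum_nonneg fun _ _ => abs_nonneg _
    show 1 ≤ 1 + ∑ r : R, ∑ i : J, |ell (C.del r) i|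
    linarith
  have hM0 : 3 ≤ M0 := by
    show (3 : ℤ) ≤ (Fintype.card (St Q R) : ℤ) + 3
    have : (0 : ℤ) ≤ (Fintype.card (St Q R) : ℤ) := Int.natCast_nonneg _
    linarith
  have hes : 0 < E * (2 * M0) := by positivity
  have habs : ∀ r i, |2 * M0 * ell (C.del r) i| < 2 * (E * (2 * M0)) := by
    intro r i
    rw [abs_mul, abs_of_pos (by linarith : (0 : ℤ) < 2 * M0)]
    nlinarith [hE r i, abs_nonneg (ell (C.del r) i)]
  refine ⟨{
    pr := pr
    prime := hp
    odd := h2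
    M := 2 * M0
    es := E * (2 * M0)
    ep := E * (2 * M0) + 1
    ek := fun a => E * (2 * M0) + 2 + (idx a : ℤ)
    ek' := fun a => 1 + (idx a : ℤ)
    es_pos := hes
    es_lt_ep := by linarith
    ep_lt_ek := fun a => by
      have : (0 : ℤ) ≤ (idx a : ℤ) := Int.natCast_nonneg _
      linarith
    ek_lt := fun a => by
      have h3 : (idx a : ℤ) < (Fintype.card (St Q R) : ℤ) := by exact_mod_cast hidx_lt a
      have h4 : (0 : ℤ) ≤ (idx a : ℤ) := Int.natCast_nonneg _
      show E * (2 * M0) + 2 + (idx a : ℤ) <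
        E * (2 * M0) + 2 * ((Fintype.card (St Q R) : ℤ) + 3)
      linarith
    ek_inj := fun a b h => hidx (by
      have h3 : E * (2 * M0) + 2 + (idx a : ℤ) = E * (2 * M0) + 2 + (idx b : ℤ) := h
      exact_mod_cast add_left_cancel h3)
    ek'_pos := fun a => by
      have : (0 : ℤ) ≤ (idx a : ℤ) := Int.natCast_nonneg _
      linarith
    ek'_inj := fun a b h => hidx (by
      have h3 : 1 + (idx a : ℤ) = 1 + (idx b : ℤ) := h
      exact_mod_cast add_left_cancel h3)
    rho := rho pr hp (2 * M0)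
    rho_add := fun z w => by
      unfold rho
      rw [← Finset.prod_mul_distrib]
      refine Finset.prod_congr rfl fun i _ => ?_
      rw [← zpow_add, ell_add, mul_add]
    rho_pos := fun z => by
      rw [rho_coe]
      refine Finset.prod_pos fun i _ => zpow_pos (div_pos ?_ ?_) _
      · exact Nat.cast_pos.2 (hp _).pos
      · exact Nat.cast_pos.2 (hp _).pos
    rho_inl := fun z i => rho_inl pr hp hinj _ z i
    rho_inr := fun z i => rho_inr pr hp hinj _ z i
    s := chi pr (E * (2 * M0))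
    p := chi pr (E * (2 * M0) + 1)
    k := fun a => chi pr (E * (2 * M0) + 2 + (idx a : ℤ))
    k' := fun a => chi pr (1 + (idx a : ℤ))
    s_ne := chi_ne pr hp _
    p_ne := chi_ne pr hp _
    k_ne := fun a => chi_ne pr hp _
    k'_ne := fun a => chi_ne pr hp _
    v_s := fun i => val_chi pr hp hinj h2 _ i
    v_p := fun i => val_chi pr hp hinj h2 _ i
    v_k := fun i a => val_chi pr hp hinj h2 _ i
    v_k' := fun i a => val_chi pr hp hinj h2 _ i
    del_lt := fun r i => by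
      rcases i with i | i
      · rw [rho_inl pr hp hinj]
        exact lt_of_le_of_lt (le_abs_self _) (habs r i)
      · rw [rho_inr pr hp hinj]
        exact lt_of_le_of_lt (neg_le_abs _) (habs r i)
    two_s := chi_norm pr hp h2 _
    two_p := chi_norm pr hp h2 _
    two_k := fun a => chi_norm pr hp h2 _
    two_k' := fun a => chi_norm pr hp h2 _
    two_rho := fun z => by
      rw [rho_sq]
      exact sq_norm (Units.ne_zero _) (rho_two pr hp h2 M0 z) }⟩

end Pool.Agent.Lib.MP_571595_lc.MORT.H27
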